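import Pool.Agent.H17.SD.Targets

open MvPolynomial SC Pool.Agent.H27.LV
open Pool.Agent.H92.SF Pool.Agent.H3.SF Pool.Agent.H17.SD

namespace Pool.Agent.H49.SFG

theorem pf_DPR (h1 : T_DUN) : T_DPR := by
  intro k F _ _ _ _ u dd hfin hdd
  constructor
  · intro D
    have h2 := h1 k F (Fin 3) u hfin (D - ∑ l, D (u l) • dd l) (by
      intro i
      rw [Derivation.sub_apply]
      have h3 : (∑ l, D (u l) • dd l : Derivation k F F) (u i) = ∑ l, D (u l) * dd l (u i) := by
        rw [Fin.sum_univ_three, Fin.sum_univ_three]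
        simp only [Derivation.add_apply, Derivation.smul_apply, smul_eq_mul]
      rw [h3]
      simp only [hdd, mul_ite, mul_one, mul_zero]
      rw [Finset.sum_ite_eq' Finset.univ i (fun l => D (u l)), if_pos (Finset.mem_univ i), sub_self])
    exact sub_eq_zero.mp h2
  · intro i j a
    have h2 := h1 k F (Fin 3) u hfin ⁅dd i, dd j⁆ (by
      intro l
      rw [Derivation.commutator_apply, hdd, hdd]
      split_ifs <;> simp)
    have h3 : (⁅dd i, dd j⁆ : Derivation k F F) a = 0 := by
      rw [h2]
      rfl
    rw [Derivation.commutator_apply] at h3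
    exact sub_eq_zero.mp h3

end Pool.Agent.H49.SFG
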